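import Pool.Agent.helper65.QG.Main
import Pool.Agent.helper65.QG.MLB
import Pool.Agent.helper74.GPR.FOU
import Pool.Agent.helper18.GPR.MLA
import Pool.Agent.helper73.GPR.ML
import Pool.Agent.helper24.GPR.PLR
import Pool.Agent.helper20.GPR.PLI
import Pool.Agent.helper72.GPR.PLS
import Pool.Agent.helper72.GPR.SSC
import Pool.Agent.helper48.GPR.SS
import Pool.Agent.helper73.GPR.TSP

/-!
# Geometric points of binary `q`-Steiner systems `S_2[2,3,n]` are exponentially rare

Let `Γ` be the set of the geometric points of a system `𝓑` on `V = F_2^n`, and suppose `|Γ| ≥ 2 ^ (n - k)`, `7 k + 13 ≤ n`.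

1. For `x ∈ Γ` lift the structure of `V / <x>` to a linear map `J_x` of `V`, `J_x x = 0`, `J_x² + J_x + 1 = 0` mod `x`; the block of
`x`, `y` is `<x, y, J_x y>`, so `J_x y + J_y x ∈ <x, y>` for `x, y ∈ Γ`, and `J_x + J_y + e` has a kernel of dimension at most 3.
2. For `x, y, z, x + y + z ∈ Γ` and `w ∈ Γ` the vector `(J_x + J_y + J_z + J_(x+y+z)) w` is in `<x, y, z, w>`, so for most `w ∈ Γ` it is in
`e w + <x, y, z>` with a fixed `e`; the essential span `V₁` of `Γ` has codimension `c ≤ k + 1`, and there the sum is `e` mod `<x, y, z>`.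
3. For `x, x + g, y, y + g ∈ Γ ∩ V₁` with `J_y g ∈ V₁` and `D = J_x + J_(x+g)` one gets `D² y ∈ <D y, y>` modulo the block `B` of `x, g`.
So `y` is in one of four subspaces. Three of them (`D²`, `D² + D`, `(D + 1)²` map it to `B`) have dimension at most 9. The fourth one,
`D² y + D y + y ∈ B`, has dimension at most `(n + 3)/2`: modulo `B`, `a = J_x` and `b = J_(x+g)` satisfy `a² + a + 1 = b² + b + 1 = 0`,
and `a b + b a = 1` on it, so that it meets its image under `a` in `0`.
4. `y ↦ J_y g` modulo `V₁` takes values in a space of dimension `c`. Polynomial method (products of at most `c` linear functions on a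
subspace `T` of dimension `d`): if `(∑_(i ≤ c) C(d, i)) |V₁| ≤ |Γ ∩ V₁| 2 ^ (d - 1)` then for some `g ∈ T`, `g ≠ 0`, at least
`|Γ ∩ V₁| / 2 ^ (d + 1)` points `y` satisfy the conditions of 3. As `∑_(i ≤ c) C(d, i) ≤ 3 ^ d / 2 ^ (d - c)` one can take
`d = (5 k + 6) / 2`, and `2 ^ (n - k) ≤ 2 ^ (5 k / 2 + n / 2 + O(1))` gives `n < 7 k + 13`.
-/

set_option autoImplicit false

namespace Pool.Agent.Results.MP_7a3aac_co.FewGeometricPoints

open Pool.Agent.helper25.QST Pool.Agent.GPR

/-- Let `𝓑` be a `q`-Steiner system `S_2[2,3,n]` and let `Γ` be the set of its geometric points (the points whose derived spread is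
Desarguesian). If `7 k + 13 ≤ n` then `|Γ| < 2 ^ (n - k)`. -/
theorem result (n k : ℕ) (hnk : 7 * k + 13 ≤ n) (𝓑 : Set (Submodule (ZMod 2) (Fin n → ZMod 2))) (h : IsQSteiner 𝓑) :
    {a : Fin n → ZMod 2 | a ≠ 0 ∧ Geometric 𝓑 a}.ncard < 2 ^ (n - k) := by
  have hML : ML_stmt := ML MLA Pool.Agent.helper65.QG.mlb
  have hSS : SS_stmt := SS (SSC PLS (PLI PLR))
  exact Pool.Agent.helper65.QG.few FOU hML hSS TSP h n k (by rw [Module.finrank_fin_fun]) hnk

end Pool.Agent.Results.MP_7a3aac_co.FewGeometricPoints
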