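import Pool.Agent.helper25.QST.Main

/-!
# Derived spreads of binary `q`-Steiner systems `S_2[2,3,n]`
-/

set_option autoImplicit false

namespace Pool.Agent.Results.MP_7a3aac_co.GeometricPoints

open Pool.Agent.helper25.QST

/-- Let `𝓑` be a `q`-Steiner system `S_2[2,3,n]`. Every `m`-dimensional subspace `U` contains at
least `2 ^ (2 m - n - 2) - 2` points whose derived spread is not geometric. In particular at least
`2 ^ (n - 2) - 2` points of the whole space, a quarter of all points, are not geometric. -/
theorem result (n m : ℕ) (𝓑 : Set (Submodule (ZMod 2) (Fin n → ZMod 2))) (h : IsQSteiner 𝓑)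
    (U : Submodule (ZMod 2) (Fin n → ZMod 2)) (hU : Module.finrank (ZMod 2) U = m) :
    2 ^ (2 * m - n - 2) ≤
      Nat.card {a : Fin n → ZMod 2 // a ∈ U ∧ a ≠ 0 ∧ ¬ Geometric 𝓑 a} + 2 := by
  classical
  have h1 := main h U
  rw [hU, Module.finrank_fin_fun, ← Fintype.card_subtype, ← Nat.card_eq_fintype_card] at h1
  exact h1

end Pool.Agent.Results.MP_7a3aac_co.GeometricPoints
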