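import Pool.Agent.helper70.QSD.Asm

/-!
# MP_7a3aac_co, Q1 (partial answer): there is no first-order definable family of q-Steiner systems `S_2[2,3,n]`, `n = 1 mod 6`

For every formula `θ(u, v, w, x_1 .. x_r)` of the language of rings and every `lam` not divisible by 7 there is `n₀` such
that for all `n ≥ n₀` with `n = 1 mod 6`, `K` a field with `2 ^ n` elements and all parameters `a` in `K`: the
three-dimensional `F_2`-subspaces `<u, v, w>` of `K` with `θ(u, v, w, a)` do not form a `2-(n,3,lam;2)` subspace design.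
Definitions: `Blocks`, `IsDesign` in `Pool/Agent/helper70/QSD/Defs.lean`. The header of that file contains the proof.
-/

namespace Pool.Agent.Results.MP_7a3aac_co.NoDefinable

open Pool.Agent.helper70.QSD

/-- No first-order definable family of `2-(n,3,lam;2)` designs, `7 ∤ lam`, `n = 1 mod 6`. -/
theorem result : ∀ (r : ℕ) (θ : FirstOrder.Language.ring.Formula (Fin 3 ⊕ Fin r)) (lam : ℕ), ¬ 7 ∣ lam →
    ∃ n₀ : ℕ, ∀ n : ℕ, n₀ ≤ n → n % 6 = 1 →
      ∀ (K : Type) [Field K] [Fintype K] [FirstOrder.Ring.CompatibleRing K], Fintype.card K = 2 ^ n →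
        ∀ a : Fin r → K, ¬ IsDesign K (Blocks θ a) lam := by
  intro r θ lam h
  obtain ⟨n₀, hn⟩ := a_FIN r θ lam h
  exact ⟨n₀, fun n h0 h1 K _ _ _ hK a => hn n h0 h1 K hK a⟩

end Pool.Agent.Results.MP_7a3aac_co.NoDefinable
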