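import Pool.Agent.helper54.QU.Main

/-!
# Binary `q`-Steiner systems `S_2[2,3,n]` invariant under the units of a commutative ring
-/

set_option autoImplicit false

namespace Pool.Agent.Results.MP_7a3aac_co.UnitInvariant

open Pool.Agent.helper54.QU

/-- Let `E` be a commutative ring with `2 ^ n` elements, `n > 3`, in which `2 = 0` (an `n`-dimensional commutative algebra over `F_2`), and let `𝓑` be a `q`-Steiner system `S_2[2,3,n]` on the additive group of `E`
(subgroups of order 8 such that every subgroup of order 4 is contained in exactly one of them) which is invariant under the multiplication by all units of `E`. Then `E` is a field, or `x * x = x` for all `x` in `E`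
(so that 1 is the only unit), or `n` is 3 modulo 6 and `E` is the product of a field with `2 ^ (n - 1)` elements and the field with 2 elements. -/
theorem result (n : ℕ) (hn : 3 < n) (E : Type) [CommRing E] (h2 : (2 : E) = 0) (hE : Nat.card E = 2 ^ n) (𝓑 : Set (AddSubgroup E)) (h𝓑 : IsSystem E 𝓑)
    (hu : ∀ u : Eˣ, ∀ B ∈ 𝓑, B.map (AddMonoidHom.mulLeft (u : E)) ∈ 𝓑) :
    IsField E ∨ (∀ x : E, x * x = x) ∨ (n % 6 = 3 ∧ ∃ (K : Type) (_ : Field K), Nat.card K = 2 ^ (n - 1) ∧ Nonempty (E ≃+* K × ZMod 2)) :=
  units_main n hn E h2 hE 𝓑 h𝓑 hu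

end Pool.Agent.Results.MP_7a3aac_co.UnitInvariant
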